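import Pool.Agent.Helper36.VC.St

/-!
# Project VC, module CTA: counting, case t > kappa
-/

set_option autoImplicit false

open Cardinal Ordinal Set Filter

open Pool.Agent.Helper65.GS Pool.Agent.Helper36.VC

universe u

namespace Pool.Agent.Helper84.VC

theorem pCTA (hCNT : StCNT.{u}) : StCTA.{u} := by
  classical
  intro X κ W A t l f h hκt hcard g0 hg0 d hd
  obtain ⟨c, hcl, hBpos⟩ := h.rep.val (B := A) subset_rfl h.pos hκt
  obtain ⟨B, hBdef⟩ : ∃ B, B = {x ∈ A | f c x = κ.ord} := ⟨_, rfl⟩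
  rw [← hBdef] at hBpos
  have hBA : B ⊆ A := by
    rw [hBdef]
    exact fun x hx => hx.1
  have hBc : ∀ x ∈ B, f c x = κ.ord := by
    rw [hBdef]
    exact fun x hx => hx.2
  have hSc : ∀ i j : Ordinal.{u},
      {b ∈ Iio l | Pos W {x ∈ B | f b x = d i (f j x)}}.Countable := by
    intro i j
    refine countable_of_ae_ne h.sat (Iio l) f (fun a ha b hb hab => ?_) (fun x => d i (f j x))
    rcases lt_or_gt_of_ne hab with h1 | h1
    · filter_upwards [h.rep.inc a b h1 hb] with x hx hxB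
      exact (hx (hBA hxB)).ne
    · filter_upwards [h.rep.inc b a h1 ha] with x hx hxB
      exact (hx (hBA hxB)).ne'
  have hcov : ∀ b < l, ∃ i < g0, ∃ j < c,
      b ∈ {b ∈ Iio l | Pos W {x ∈ B | f b x = d i (f j x)}} := by
    intro b hb
    have h1 : Pos W {x ∈ B | f b x < t} :=
      hBpos.ae ((h.rep.bd b hb).mono fun x hx hxB => hx (hBA hxB))
    obtain ⟨i, hi, hi2⟩ := hd {x ∈ B | f b x < t} (fun x hx => hBA hx.1) h1 (f b)
      (fun x hx => hx.2)
    obtain ⟨e, he⟩ : ∃ e : X → Ordinal.{u}, ∀ x, (∃ e < κ.ord, f b x = d i e) →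
        e x < κ.ord ∧ f b x = d i (e x) := by
      refine ⟨fun x => if hx : ∃ e < κ.ord, f b x = d i e then hx.choose else 0, ?_⟩
      intro x hx
      simp only [dif_pos hx]
      exact hx.choose_spec
    obtain ⟨j, hj, hj2⟩ := h.rep.onto _ (fun x hx => hBA hx.1.1) hi2 e
      (fun x hx => (he x hx.2).1.trans hκt)
    have hjc : j < c := by
      refine h.rep.lt_of_lt (fun x hx => hBA hx.1.1.1) hj2 hj ?_
      intro x hx
      rw [hBc x hx.1.1.1, ← hx.2]
      exact (he x hx.1.2).1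
    refine ⟨i, hi, j, hjc, hb, hj2.mono fun x hx => ⟨hx.1.1.1, ?_⟩⟩
    rw [← hx.2]
    exact (he x hx.1.2).2
  have hmain := hCNT l g0 c (fun i j => {b ∈ Iio l | Pos W {x ∈ B | f b x = d i (f j x)}})
    (fun i _ j _ => hSc i j) hcov
  have hl : l.card.ord = l := hcard
  have h2 : g0.card < l.card := by
    rw [← hl] at hg0
    exact Cardinal.lt_ord.1 hg0
  have h3 : c.card < l.card := by
    rw [← hl] at hcl
    exact Cardinal.lt_ord.1 hcl
  have h4 : ℵ₀ < l.card := by
    have h5 := h.kl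
    rw [← hl] at h5
    exact h.unc.trans (Cardinal.ord_lt_ord.1 h5)
  exact absurd hmain (not_le.2 (max_lt (max_lt h2 h3) h4))

end Pool.Agent.Helper84.VC
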